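import Mathlib

namespace Pool.Agent.Results.MP_478a43_lc.CPLCPimpRCP

open unitInterval

/-- `N` is a fuzzy negation: non-increasing with `N 0 = 1` and `N 1 = 0`. -/
structure FuzzyNegation (N : I → I) : Prop where
  anti : ∀ x y : I, x ≤ y → N y ≤ N x
  zero : N 0 = 1
  one : N 1 = 0

/-- `J` is a fuzzy implication: non-increasing in the first variable, non-decreasing in the
second one, with `J 0 0 = J 1 1 = 1` and `J 1 0 = 0`. -/
structure FuzzyImplication (J : I → I → I) : Prop where
  anti_left : ∀ x x' y : I, x ≤ x' → J x' y ≤ J x y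
  mono_right : ∀ x y y' : I, y ≤ y' → J x y ≤ J x y'
  zero_zero : J 0 0 = 1
  one_one : J 1 1 = 1
  one_zero : J 1 0 = 0

/-- The contrapositive symmetry (CP). -/
def CP (J : I → I → I) (N : I → I) : Prop := ∀ x y : I, J x y = J (N y) (N x)

/-- The left contrapositive symmetry (L-CP). -/
def LCP (J : I → I → I) (N : I → I) : Prop := ∀ x y : I, J (N x) y = J (N y) x

/-- The right contrapositive symmetry (R-CP). -/
def RCP (J : I → I → I) (N : I → I) : Prop := ∀ x y : I, J x (N y) = J y (N x)

/-- There is no fuzzy implication and fuzzy negation with (CP) and (L-CP) but without (R-CP). -/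
theorem result : ¬ ∃ (J : I → I → I) (N : I → I), FuzzyImplication J ∧ FuzzyNegation N ∧
    CP J N ∧ LCP J N ∧ ¬ RCP J N := by
  rintro ⟨J, N, -, -, hC, hL, hR⟩
  apply hR
  -- `J (N y) x = J (N y) (N (N x))`
  have e1 : ∀ x y : I, J (N y) x = J (N y) (N (N x)) := by
    intro x y
    calc J (N y) x = J (N x) y := hL y x
      _ = J (N y) (N (N x)) := hC (N x) y
  -- `J x y = J (N (N x)) y`
  have e2 : ∀ x y : I, J x y = J (N (N x)) y := by
    intro x y
    calc J x y = J (N y) (N x) := hC x y
      _ = J (N y) (N (N (N x))) := e1 (N x) y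
      _ = J (N (N x)) y := (hC (N (N x)) y).symm
  intro x y
  calc J x (N y) = J (N (N x)) (N y) := e2 x (N y)
    _ = J (N (N y)) (N x) := hL (N x) (N y)
    _ = J y (N x) := (e2 y (N x)).symm

end Pool.Agent.Results.MP_478a43_lc.CPLCPimpRCP
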